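import Pool.Agent.helper82.LB.Spec2
import Pool.Agent.helper16.GK.RMain2

/-!
# Project LB (MP_2e0e07_nt): the final statement without the hypothesis on big primes
-/

set_option autoImplicit false

open Matrix Polynomial NumberField IsDedekindDomain Pool.Agent.GO Pool.Agent.AR Pool.Agent.RG Pool.Agent.HZ
  Pool.Agent.DS Pool.Agent.AX Pool.Agent.UM Pool.Agent.PU Pool.Agent.GK

namespace Pool.Agent.LB

/-- The final statement: as `RMAIN2_stmt`; infinitely many `j` are big, or all but finitely many primes are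
of the form `p j`. -/
def RMAIN3_stmt : Prop := ∀ (r : ℕ) (n : Fin r → ℕ) (i₀ : Fin r) (h d w p₀ : ℕ) [Fact p₀.Prime],
    ∃ c₁ c₂ : ℕ, ∀ {K E J : Type} [Field K] [NumberField K] (_ : Module.finrank ℚ K ≤ h)
    [Field E] [NumberField E] (_ : Module.finrank ℚ E ≤ d) (Q : Pl K → (𝓞 E)[X])
    (p : J → ℕ) [∀ j, Fact (p j).Prime] (_ : Function.Injective p)
    (F κ : J → Type) [∀ j, NormedField (F j)] [∀ j, NormedAlgebra ℚ_[p j] (F j)]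
    [∀ j, FiniteDimensional ℚ_[p j] (F j)] (_ : ∀ j, Module.finrank ℚ_[p j] (F j) ≤ d)
    [∀ j, Field (κ j)] [∀ j, IsAlgClosed (κ j)] [∀ j, CharP (κ j) (p j)]
    (ι : ∀ j, E →+* F j) (red : ∀ j, F j → κ j)
    (ρ : ∀ j, GalK K →* Matrix (Fin 2) (Fin 2) (F j))
    (S : ∀ j, GalK K →* Matrix (Fin 2) (Fin 2) (κ j))
    (_ : {j | Big (p j) (S j)}.Infinite ∨ {q : ℕ | q.Prime ∧ ∀ j, p j ≠ q}.Finite),
    ∃ c : J → ℕ, (∀ j, Big (p j) (S j) → 2 * d + 1 < p j → c j = 1) ∧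
    ∀ (P : Fin r → Pl K → ℤ[X]) (T : Finset (Pl K)) (N : ℕ)
    (_ : N = (discr K).natAbs * ∏ v ∈ T, nv K v)
    (_ : IsPolys n i₀ w (nv K) T P Q)
    (V : (q : ℕ) → [Fact q.Prime] → (i : Fin r) → GalK K →* Matrix (Fin (n i)) (Fin (n i)) ℤ_[q])
    (_ : IsSystem (frob K) (nv K) T P V)
    (F₀ : Type) [NormedField F₀] [NormedAlgebra ℚ_[p₀] F₀] [FiniteDimensional ℚ_[p₀] F₀]
    (_ : Module.finrank ℚ_[p₀] F₀ ≤ d) (ι₀ : E →+* F₀) (ρ₀ : GalK K →* Matrix (Fin 2) (Fin 2) F₀)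
    (_ : HasPolys (frob K) (nv K) T p₀ Q ι₀ ρ₀)
    (_ : ∀ v ∉ T, ¬ p₀ ∣ nv K v → ∀ σ ∈ inert K v, (∀ i, V p₀ i σ = 1) ∧ ρ₀ σ = 1)
    (Ω : J → Type) [∀ j, Field (Ω j)] [∀ j, IsAlgClosed (Ω j)]
    [∀ j, CharZero (Ω j)] [∀ j, Algebra (F j) (Ω j)] [∀ j, TopologicalSpace (Ω j)]
    [∀ j, IsTopologicalRing (Ω j)] [∀ j, T2Space (Ω j)]
    (_ : ∀ j, IsMember (frob K) (nv K) T P Q (p j) (V (p j)) (Ω j) (ι j) (red j) (ρ j) (S j)),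
      (AllAriseK K n (PE E P) (QE Q) T ∧
        (∀ v ∉ T, ∀ φ : E →+* ℂ, RatioAt (fun i => P i v) (Q v) φ) ∧
        ∀ j, (kerV (V (p j)) ⊔ adKer (ρ j)).index = 0 ∧
          (Big (p j) (S j) → p j ≠ 2 → kerV (Wm (p j) V) ≤ adKer (S j))) ∨
      (NoneArisesK K n (PE E P) (QE Q) T ∧
        (∃ v ∉ T, nv K v ≤ c₁ * N ^ c₂ ∧ ∀ φ : E →+* ℂ, ¬ RatioAt (fun i => P i v) (Q v) φ) ∧
        (∀ j, (cross V ρ j).index ≠ 0 ∧ (Big (p j) (S j) → c₁ * N ^ c₂ < p j →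
          (cross V ρ j).index ≤ 2 ∧ ¬ kerV (Wm (p j) V) ≤ adKer (S j))) ∧
        (∀ s : Finset J, (∀ j ∈ s, Big (p j) (S j) ∧ 2 * d + 1 < p j ∧
          2 < (cross V ρ j).index) → ∏ j ∈ s, (cross V ρ j).index ≤ c₁ * N ^ c₂) ∧
        (∀ (s : Finset J) (k : J → ℕ), (∀ j ∈ s, ∀ g ∈ kerAll V,
          nu (ρ j g) ≤ ((p j : ℝ) ^ k j)⁻¹) →
          ∏ j ∈ s, p j ^ k j ≤ (∏ j ∈ s, c j) * (c₁ * N ^ c₂)) ∧
        ∀ g : J → GalK K, (∀ j, g j ∈ cross V ρ j) →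
          ∃ z ∈ kerAll V, ∀ j, z⁻¹ * g j ∈ adKer (ρ j))

theorem RMAIN3 (hRMAIN2 : RMAIN2_stmt) (hFRB : Pool.Agent.GK.FRB_stmt) (hBIG : BIG_stmt) : RMAIN3_stmt := by
  intro r n i₀ h d w p₀ _
  obtain ⟨c₁, c₂, H⟩ := hRMAIN2 r n i₀ h d w p₀
  refine ⟨c₁, c₂, ?_⟩
  intro K E J _ _ hK _ _ hE Q p _ hp F κ _ _ _ hF _ _ _ ι red ρ S hinf
  by_cases hbig : {j | Big (p j) (S j)}.Infinite
  · exact H hK hE Q p hp F κ hF ι red ρ S hbig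
  · have hprimes := hinf.resolve_left hbig
    refine ⟨fun _ => 1, fun _ _ _ => rfl, ?_⟩
    intro P T N hN hpol V hV F₀ _ _ _ hF₀ ι₀ ρ₀ hρ₀ hunr Ω _ _ _ _ _ _ _ hmem
    exfalso
    refine hbig (hBIG (frob K) (nv K) (T : Set (Pl K)) Q p F Ω κ ι red ρ S (hFRB K)
      ⟨hpol.finite, fun v hv => ⟨(hpol.boundQ v hv).1, (hpol.boundQ v hv).2.1⟩, hprimes,
        fun j => (hmem j).polys, fun j => (hmem j).integral, fun j => (hmem j).realisation.irr,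
        fun j => (hmem j).isRed, fun j => (hmem j).reduction⟩)

end Pool.Agent.LB
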