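import Pool.Agent.helper82.LB.All
import Pool.Agent.helper82.LB.RMain3
import Pool.Agent.helper82.CH.AllB
import Pool.Agent.helper16.GK.All2

/-!
# Projects PU, GK, CH, LB (MP_2e0e07_nt): the final theorem, no hypotheses
-/

set_option autoImplicit false

namespace Pool.Agent.LB

theorem RMAIN3_t : RMAIN3_stmt :=
  RMAIN3 (Pool.Agent.GK.RMAIN2_all Pool.Agent.CH.CHEB_all Pool.Agent.CH.CHEBE_all)
    (Pool.Agent.GK.FRB_all Pool.Agent.CH.CHEB_all) BIG_t

end Pool.Agent.LB
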