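import Pool.Agent.helper82.LB.Spec2
import Pool.Agent.helper27.LB.ORD
import Pool.Agent.helper79.LB.TFQ

/-!
# Row lb:SQF (MP_2e0e07_nt): the square roots of the discriminants are not all in one number field
-/

set_option autoImplicit false

open Matrix Polynomial NumberField Pool.Agent.GO Pool.Agent.AR Pool.Agent.RG Pool.Agent.HZ Pool.Agent.DS Pool.Agent.AX
  Pool.Agent.UM Pool.Agent.CH

namespace Pool.Agent.LB

theorem SQF (hSPT : SPT_stmt) (hLOC : LOC_stmt) : SQF_stmt := by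
  classical
  intro Γ Place E J _ _ _ _ _ _ frob nv T Q p _ F Ω κ _ _ _ _ _ _ _ _ _ ι red ρ S hfrob hfam L _ _ i
  by_contra hneg
  push Not at hneg
  -- the prime
  obtain ⟨p₀, hp₀, hp₁, hp₂⟩ := hSPT L hfam.primes.toFinset
  have hj : ∃ j, p j = p₀ := by
    by_contra hcon
    push Not at hcon
    apply hp₁
    rw [Set.Finite.mem_toFinset]
    exact ⟨hp₀, hcon⟩
  obtain ⟨j, rfl⟩ := hj
  -- the embedding of `L`
  letI iQ : Algebra ℚ_[p j] (Ω j) := ((algebraMap (F j) (Ω j)).comp (algebraMap ℚ_[p j] (F j))).toAlgebra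
  haveI : CharZero (F j) := charZero_of_injective_algebraMap (algebraMap ℚ_[p j] (F j)).injective
  haveI : CharZero (Ω j) := charZero_of_injective_algebraMap (algebraMap (F j) (Ω j)).injective
  letI iL : Algebra E L := i.toAlgebra
  letI iE : Algebra E (Ω j) := ((algebraMap (F j) (Ω j)).comp (ι j)).toAlgebra
  haveI : Algebra.IsAlgebraic ℚ L := inferInstance
  haveI : Algebra.IsAlgebraic E L := Algebra.IsAlgebraic.tower_top (K := ℚ) E
  let φ : L →ₐ[E] Ω j := IsAlgClosed.lift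
  have hφ : ∀ x : E, φ (i x) = algebraMap (F j) (Ω j) (ι j x) := fun x => φ.commutes x
  have hLQ : ∀ y : L, ∃ z : ℚ_[p j], algebraMap (F j) (Ω j) (algebraMap ℚ_[p j] (F j) z) = φ y :=
    fun y => hp₂ (Ω j) (φ : L →+* Ω j) y
  have hι : ∀ x : E, ∃ y : ℚ_[p j], algebraMap ℚ_[p j] (F j) y = ι j x := by
    intro x
    obtain ⟨z, hz⟩ := hLQ (i x)
    refine ⟨z, (algebraMap (F j) (Ω j)).injective ?_⟩
    rw [hz, hφ]
  obtain ⟨hcont, hpol⟩ := hfam.polys j
  have hT : (T ∪ {v | p j ∣ nv v}).Finite := hfam.finite.union (hfrob.finite (p j) hp₀)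
  -- trace and determinant at the Frobenius elements
  have hFr : ∀ v ∉ T, ¬ p j ∣ nv v → ∀ s ∈ frob v,
      (ρ j s).trace = -ι j ((((Q v).coeff 1 : 𝓞 E)) : E) ∧ (ρ j s).det = ι j ((((Q v).coeff 0 : 𝓞 E)) : E) := by
    intro v hv hpv s hs
    have h1 := ORD_coeff _ _ (hpol v hv hpv s hs)
    simpa [Polynomial.coeff_map] using h1
  have htr : Continuous (fun g => (ρ j g).trace) := hcont.matrix_trace
  have hdet : Continuous (fun g => (ρ j g).det) := hcont.matrix_det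
  have hdsc : Continuous (fun g => dsc (ρ j g)) := by
    unfold dsc
    exact (htr.pow 2).sub (continuous_const.mul hdet)
  have hemb : Topology.IsClosedEmbedding (algebraMap ℚ_[p j] (F j)) :=
    (algebraMap_isometry ℚ_[p j] (F j)).isClosedEmbedding
  have hcl : IsClosed (Set.range (algebraMap ℚ_[p j] (F j))) := hemb.isClosed_range
  -- trace and determinant of all elements
  have hQp : ∀ g, ∃ a b : ℚ_[p j], algebraMap ℚ_[p j] (F j) a = (ρ j g).trace ∧ algebraMap ℚ_[p j] (F j) b = (ρ j g).det := by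
    have h1 : IsOpen {g : Γ | ¬ ((ρ j g).trace ∈ Set.range (algebraMap ℚ_[p j] (F j)) ∧
        (ρ j g).det ∈ Set.range (algebraMap ℚ_[p j] (F j)))} := by
      have h2 : IsClosed {g : Γ | (ρ j g).trace ∈ Set.range (algebraMap ℚ_[p j] (F j)) ∧
        (ρ j g).det ∈ Set.range (algebraMap ℚ_[p j] (F j))} := (hcl.preimage htr).inter (hcl.preimage hdet)
      exact h2.isOpen_compl
    intro g
    by_contra hcon
    have h3 : g ∈ {g : Γ | ¬ ((ρ j g).trace ∈ Set.range (algebraMap ℚ_[p j] (F j)) ∧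
        (ρ j g).det ∈ Set.range (algebraMap ℚ_[p j] (F j)))} := by
      rintro ⟨⟨a, ha⟩, ⟨b, hb⟩⟩
      exact hcon ⟨a, b, ha, hb⟩
    obtain ⟨v, -, hv, s, hs, -, hs2⟩ := hfrob.dense _ _ h1 ⟨g, h3, trivial⟩ hT
    rw [Set.mem_union, not_or] at hv
    obtain ⟨h4, h5⟩ := hFr v hv.1 hv.2 s hs
    apply hs2
    rw [h4, h5]
    obtain ⟨y, hy⟩ := hι ((((Q v).coeff 1 : 𝓞 E)) : E)
    obtain ⟨z, hz⟩ := hι ((((Q v).coeff 0 : 𝓞 E)) : E)
    exact ⟨⟨-y, by rw [map_neg, hy]⟩, ⟨z, hz⟩⟩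
  -- the radius
  have hW1 : IsOpen {M : Fin 2 → Fin 2 → F j | (Matrix.of M).trace ≠ 0} := by
    have h1 : Continuous (fun M : Fin 2 → Fin 2 → F j => Matrix.of M) := continuous_id
    exact isOpen_ne_fun h1.matrix_trace continuous_const
  have hW2 : (fun x y => (1 : Matrix (Fin 2) (Fin 2) (F j)) x y) ∈
      {M : Fin 2 → Fin 2 → F j | (Matrix.of M).trace ≠ 0} := by
    have h1 : Matrix.of (fun x y => (1 : Matrix (Fin 2) (Fin 2) (F j)) x y) = 1 := rfl
    show (Matrix.of fun x y => (1 : Matrix (Fin 2) (Fin 2) (F j)) x y).trace ≠ 0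
    rw [h1, Matrix.trace_one]
    simp
  obtain ⟨ε, hε, hball⟩ := Metric.isOpen_iff.1 hW1 _ hW2
  obtain ⟨g, hg1, x, hx1, hx2⟩ := hLOC (p j) (F j) (Ω j) Γ (ρ j) hcont (hfam.integral j) (hfam.irr j) hQp ε hε
  have hgW : (ρ j g).trace ≠ 0 := by
    have hmem : (fun x y => ρ j g x y) ∈ Metric.ball (fun x y => (1 : Matrix (Fin 2) (Fin 2) (F j)) x y) ε := by
      rw [Metric.mem_ball, dist_pi_lt_iff hε]
      intro a
      rw [dist_pi_lt_iff hε]
      intro b
      rw [dist_eq_norm]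
      exact hg1 a b
    exact hball hmem
  -- a Frobenius element near `g`
  have hsq : IsClosed ((algebraMap ℚ_[p j] (F j)) '' {y : ℚ_[p j] | IsSquare y}) :=
    hemb.isClosedMap _ (TFQ_closed (p j))
  have hO : IsOpen {s : Γ | (ρ j s).trace ≠ 0 ∧ dsc (ρ j s) ∉ (algebraMap ℚ_[p j] (F j)) '' {y : ℚ_[p j] | IsSquare y}} := by
    apply IsOpen.inter
    · exact isOpen_ne_fun htr continuous_const
    · exact (hsq.preimage hdsc).isOpen_compl
  have hgO : g ∈ {s : Γ | (ρ j s).trace ≠ 0 ∧ dsc (ρ j s) ∉ (algebraMap ℚ_[p j] (F j)) '' {y : ℚ_[p j] | IsSquare y}} := by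
    refine ⟨hgW, ?_⟩
    rintro ⟨y, hy, hy'⟩
    rw [← hx1] at hy'
    have hyx : y = x := (algebraMap ℚ_[p j] (F j)).injective hy'
    exact hx2 (hyx ▸ hy)
  obtain ⟨v, -, hv, s, hs, -, hs1, hs2⟩ := hfrob.dense _ _ hO ⟨g, hgO, trivial⟩ hT
  rw [Set.mem_union, not_or] at hv
  obtain ⟨h4, h5⟩ := hFr v hv.1 hv.2 s hs
  have hc1 : (Q v).coeff 1 ≠ 0 := by
    intro h0
    apply hs1
    rw [h4, h0]
    simp
  obtain ⟨y, hy⟩ := hneg v hv.1 hc1
  obtain ⟨z, hz⟩ := hLQ y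
  apply hs2
  refine ⟨z * z, ⟨z, rfl⟩, ?_⟩
  have h6 : dsc (ρ j s) = ι j ((dQ (Q v) : 𝓞 E) : E) := by
    have h7 : (ι j) ((algebraMap (𝓞 E) E) (dQ (Q v))) =
        (ι j) ((algebraMap (𝓞 E) E) ((Q v).coeff 1)) ^ 2 - 4 * (ι j) ((algebraMap (𝓞 E) E) ((Q v).coeff 0)) := by
      unfold dQ
      have e4 : (ι j) ((algebraMap (𝓞 E) E) 4) = 4 := by
        rw [show (4 : 𝓞 E) = ((4 : ℕ) : 𝓞 E) by norm_num, map_natCast, map_natCast]
        norm_num
      rw [map_sub, map_pow, map_mul, map_sub, map_pow, map_mul, e4]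
    unfold dsc
    rw [h4, h5, neg_sq]
    exact h7.symm
  rw [h6]
  apply (algebraMap (F j) (Ω j)).injective
  rw [← hφ, hy, map_mul, map_mul, map_mul, hz]

end Pool.Agent.LB
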