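import Pool.Agent.helper82.LB.Spec1
import Pool.Agent.helper82.UM.Defs

/-!
# Project LB (MP_2e0e07_nt): infinitely many primes are big, part 2

RULES as in Spec1; `import Pool.Agent.helper82.LB.Spec2`, `open Matrix Polynomial NumberField Pool.Agent.GO Pool.Agent.AR Pool.Agent.RG Pool.Agent.HZ Pool.Agent.DS Pool.Agent.AX Pool.Agent.UM Pool.Agent.CH`, `namespace Pool.Agent.LB`.
-/

set_option autoImplicit false

open Matrix Polynomial NumberField Pool.Agent.GO Pool.Agent.AR Pool.Agent.RG Pool.Agent.HZ Pool.Agent.DS Pool.Agent.AX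
  Pool.Agent.UM Pool.Agent.CH

namespace Pool.Agent.LB

/-- the discriminant of a quadratic polynomial -/
noncomputable def dQ {R : Type*} [CommRing R] (q : R[X]) : R := q.coeff 1 ^ 2 - 4 * q.coeff 0

/-- the family of the representations `ρ j` with the polynomials `Q v`, and their reductions -/
structure Fam {Γ Place E J : Type} [Group Γ] [TopologicalSpace Γ] [Field E] (frob : Place → Set Γ) (nv : Place → ℕ)
    (T : Set Place) (Q : Place → (𝓞 E)[X]) (p : J → ℕ) [∀ j, Fact (p j).Prime] (F Ω κ : J → Type)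
    [∀ j, NormedField (F j)] [∀ j, NormedAlgebra ℚ_[p j] (F j)] [∀ j, Field (Ω j)] [∀ j, Algebra (F j) (Ω j)] [∀ j, Field (κ j)]
    (ι : ∀ j, E →+* F j) (red : ∀ j, F j → κ j) (ρ : ∀ j, Γ →* Matrix (Fin 2) (Fin 2) (F j))
    (S : ∀ j, Γ →* Matrix (Fin 2) (Fin 2) (κ j)) : Prop where
  finite : T.Finite
  quad : ∀ v ∉ T, (Q v).Monic ∧ (Q v).natDegree = 2
  primes : {q : ℕ | q.Prime ∧ ∀ j, p j ≠ q}.Finite
  polys : ∀ j, HasPolys frob nv T (p j) Q (ι j) (ρ j)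
  integral : ∀ j g x y, ‖ρ j g x y‖ ≤ 1
  irr : ∀ j, ∀ U : Subgroup Γ, IsOpen (U : Set Γ) → Irred (fun u : U => bc (algebraMap (F j) (Ω j)) (ρ j) u)
  isRed : ∀ j, IsRed (red j)
  reduction : ∀ j g, S j g = (ρ j g).map (red j)

/-- **SQF** (medium). Suppose that all the `i (dQ (Q v))`, `v ∉ T`, `(Q v).coeff 1 ≠ 0`, are squares in `L`. SPT for `L`, avoiding the finite set of the primes which are no `p j`: `p = p j`, `F = F j`. `Ω j` is a `ℚ_p`-algebra through `F` (`RingHom.toAlgebra`); extend `algebraMap ∘ ι j : E → Ω j` along `i` to `φ : L → Ω j` (`L` is algebraic over `E`, `Ω j` algebraically closed: `IsAlgClosed.lift`).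
SPT: `φ(L) ⊂ ℚ_p`, so `ι j (E) ⊂ ℚ_p` (`F → Ω j` is injective). Trace and determinant of `ρ j s`, `s ∈ frob v`, `v ∉ T`, `p ∤ nv v`, are `-ι((Q v).coeff 1)`, `ι((Q v).coeff 0)`; the image of `ℚ_p` in `F` is closed (isometric, complete) and the Frobenius elements outside a finite set of places are dense (`IsFrob.dense`, `IsFrob.finite`): trace and determinant of all `ρ j g` are in `ℚ_p`.
LOC with `ε ≤ ‖2‖` (so that the trace, near `2`, is `≠ 0`): `g` with `dsc (ρ j g)` not a square in `ℚ_p`. The set of nonsquares of `ℚ_p` is open, so there are `v ∉ T`, `p ∤ nv v`, `s ∈ frob v` near `g` with `trace ≠ 0` and `dsc (ρ j s) = ι (dQ (Q v))` a nonsquare of `ℚ_p`. But `(Q v).coeff 1 ≠ 0`, so `i (dQ (Q v)) = y²` and `ι (dQ (Q v)) = (φ y)²` with `φ y ∈ ℚ_p`. Uses SPT, LOC. -/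
def SQF_stmt : Prop := ∀ {Γ Place E J : Type} [Group Γ] [TopologicalSpace Γ] [IsTopologicalGroup Γ] [CompactSpace Γ] [Field E] [NumberField E]
  (frob : Place → Set Γ) (nv : Place → ℕ) (T : Set Place) (Q : Place → (𝓞 E)[X]) (p : J → ℕ) [∀ j, Fact (p j).Prime] (F Ω κ : J → Type)
  [∀ j, NormedField (F j)] [∀ j, NormedAlgebra ℚ_[p j] (F j)] [∀ j, FiniteDimensional ℚ_[p j] (F j)] [∀ j, Field (Ω j)] [∀ j, IsAlgClosed (Ω j)]
  [∀ j, Algebra (F j) (Ω j)] [∀ j, Field (κ j)] [∀ j, IsAlgClosed (κ j)] [∀ j, CharP (κ j) (p j)] (ι : ∀ j, E →+* F j) (red : ∀ j, F j → κ j)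
  (ρ : ∀ j, Γ →* Matrix (Fin 2) (Fin 2) (F j)) (S : ∀ j, Γ →* Matrix (Fin 2) (Fin 2) (κ j)), IsFrob frob nv →
  Fam frob nv T Q p F Ω κ ι red ρ S → ∀ (L : Type) [Field L] [NumberField L] (i : E →+* L),
    ∃ v ∉ T, (Q v).coeff 1 ≠ 0 ∧ ¬ IsSquare (i ((dQ (Q v) : 𝓞 E) : E))

/-- **ORD** (short-medium). As SQF with `L = E`, `i = id`: `p = p j`, traces and determinants in `ℚ_p`. LOC with `ε = 1/100`: `‖Uk (trace) (det) k - k‖ ≤ max(‖trace - 2‖, ‖det - 1‖) < 1/100 < ‖k‖` for `1 ≤ k ≤ 60` (`Uk` has integral coefficients, `Uk 2 1 k = k`; `‖k‖ ≥ 1/k`), so `Uk ≠ 0`; `dsc ≠ 0` as it is no square. These are open conditions; take a Frobenius element near `g`. Uses SPT, LOC. -/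
def ORD_stmt : Prop := ∀ {Γ Place E J : Type} [Group Γ] [TopologicalSpace Γ] [IsTopologicalGroup Γ] [CompactSpace Γ] [Field E] [NumberField E]
  (frob : Place → Set Γ) (nv : Place → ℕ) (T : Set Place) (Q : Place → (𝓞 E)[X]) (p : J → ℕ) [∀ j, Fact (p j).Prime] (F Ω κ : J → Type)
  [∀ j, NormedField (F j)] [∀ j, NormedAlgebra ℚ_[p j] (F j)] [∀ j, FiniteDimensional ℚ_[p j] (F j)] [∀ j, Field (Ω j)] [∀ j, IsAlgClosed (Ω j)]
  [∀ j, Algebra (F j) (Ω j)] [∀ j, Field (κ j)] [∀ j, IsAlgClosed (κ j)] [∀ j, CharP (κ j) (p j)] (ι : ∀ j, E →+* F j) (red : ∀ j, F j → κ j)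
  (ρ : ∀ j, Γ →* Matrix (Fin 2) (Fin 2) (F j)) (S : ∀ j, Γ →* Matrix (Fin 2) (Fin 2) (κ j)), IsFrob frob nv →
  Fam frob nv T Q p F Ω κ ι red ρ S →
    ∃ v ∉ T, dQ (Q v) ≠ 0 ∧ ∀ k : ℕ, 1 ≤ k → k ≤ 60 → Uk (-(Q v).coeff 1) ((Q v).coeff 0) k ≠ 0

/-- **BIG** (medium-long). It is enough to find for every finite set `Σ` of primes some `j` with `p j ∉ Σ` and `S j` big. GRE for `D = {dQ (Q v) | v ∉ T, (Q v).coeff 1 ≠ 0}` (hypothesis: SQF) gives `M`, `σ` and for each of the finitely many `τ : E → M` places `v_τ, v'_τ ∉ T` (with `coeff 1 ≠ 0`, `δ, δ' ≠ 0`) and `y_τ`. `v₀` from ORD. Enlarge `Σ` by: `2`; the primes which are no `p j`; the primes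
dividing `nv v` for `v = v₀, v_τ, v'_τ` (`nv v ≠ 0`); the primes dividing the norms of the nonzero elements `(Q v).coeff 1`, `dQ (Q v)` (`v = v_τ, v'_τ`), `dQ (Q v₀)`, `Uk .. k` (`1 ≤ k ≤ 60`, `v₀`) of `𝓞 E` (a ring homomorphism from `𝓞 E` to a field with `p = 0` kills `x ≠ 0` only if `p ∣ N(x)`). CHEB for `M / ℚ`, `σ`, `Σ`: `p`, `P`, `σ x - x^p ∈ P` for `x ∈ 𝓞 M`. `p = p j`;
`φ = red j ∘ ι j : 𝓞 E → κ j` is a ring homomorphism (`ι j x` is integral over `ℤ`, so of norm `≤ 1`; `IsRed`). EMB: `τ` with `τ(x) ∈ P ↔ φ x = 0`. For `x ∈ 𝓞 E`: `σ(τ x) = τ x`, so `τ(x^p - x) ∈ P`, `φ(x)^p = φ(x)`: `φ(x)` is in the prime field. `S j` has an open kernel (`{g : ‖ρ j g - 1‖ < 1}`), of finite index (`Γ` compact), so every `S j g` is `S j s` for a Frobenius element `s` at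
some `v ∉ T`, `p ∤ nv v`, and its trace and determinant are `-φ(coeff 1)`, `φ(coeff 0)`, in the prime field. Suppose that `S j` is not big. DIC (with `g₀` = a Frobenius element at `v₀`: `(S g₀)^k = Uk * S g₀ - scalar` is not scalar because `Uk ≠ 0` and `dsc (S g₀) ≠ 0`) for Frobenius elements at `v_τ`, `v'_τ` (traces `≠ 0`): `φ(δ δ') = c²`, `c` in the prime field, `c = m` with `m` a natural number.
So `y² - m² = τ(δ δ' - m²) ∈ P`, `y ≡ ± m mod P`, `y^p ≡ y` (`m^p ≡ m mod p`, `p` odd), `-y = σ y ≡ y^p ≡ y`, `2 y ∈ P`, `y ∈ P`, `τ(δ δ') = y² ∈ P`, `φ(δ δ') = 0`, a contradiction. Uses CHEB GRE SQF ORD EMB DIC. -/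
def BIG_stmt : Prop := ∀ {Γ Place E J : Type} [Group Γ] [TopologicalSpace Γ] [IsTopologicalGroup Γ] [CompactSpace Γ] [Field E] [NumberField E]
  (frob : Place → Set Γ) (nv : Place → ℕ) (T : Set Place) (Q : Place → (𝓞 E)[X]) (p : J → ℕ) [∀ j, Fact (p j).Prime] (F Ω κ : J → Type)
  [∀ j, NormedField (F j)] [∀ j, NormedAlgebra ℚ_[p j] (F j)] [∀ j, FiniteDimensional ℚ_[p j] (F j)] [∀ j, Field (Ω j)] [∀ j, IsAlgClosed (Ω j)]
  [∀ j, Algebra (F j) (Ω j)] [∀ j, Field (κ j)] [∀ j, IsAlgClosed (κ j)] [∀ j, CharP (κ j) (p j)] (ι : ∀ j, E →+* F j) (red : ∀ j, F j → κ j)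
  (ρ : ∀ j, Γ →* Matrix (Fin 2) (Fin 2) (F j)) (S : ∀ j, Γ →* Matrix (Fin 2) (Fin 2) (κ j)), IsFrob frob nv →
  Fam frob nv T Q p F Ω κ ι red ρ S → {j | Big (p j) (S j)}.Infinite

end Pool.Agent.LB
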