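import Pool.Agent.helper82.CH.AllA
import Pool.Agent.helper82.LB.Spec2
import Pool.Agent.helper66.LB.BIG
import Pool.Agent.helper39.LB.DIC
import Pool.Agent.helper83.LB.DIR
import Pool.Agent.helper3.LB.EMB
import Pool.Agent.helper44.LB.GRE
import Pool.Agent.helper13.LB.KLE
import Pool.Agent.helper89.LB.LOC
import Pool.Agent.helper27.LB.ORD
import Pool.Agent.helper30.LB.POW
import Pool.Agent.helper95.LB.SPT
import Pool.Agent.helper82.LB.SQF
import Pool.Agent.helper79.LB.TFQ

/-!
# Project LB (MP_2e0e07_nt): infinitely many primes are big, assembled. No hypotheses.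
-/

set_option autoImplicit false

namespace Pool.Agent.LB

theorem LOC_t : LOC_stmt := LOC TFQ POW

theorem SPT_t : SPT_stmt := SPT Pool.Agent.CH.CHEB_all

theorem SQF_t : SQF_stmt := SQF SPT_t LOC_t

theorem ORD_t : ORD_stmt := ORD SPT_t LOC_t

theorem DIC_t : DIC_stmt := DIC KLE DIR

/-- infinitely many of the reductions of a compatible system of two-dimensional representations, irreducible on open
subgroups, for all but finitely many primes, are irreducible with image of order divisible by `p` -/
theorem BIG_t : BIG_stmt := BIG Pool.Agent.CH.CHEB_all GRE SQF_t ORD_t EMB DIC_t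

end Pool.Agent.LB
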