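import Pool.Agent.helper82.CH.Defs
import Pool.Agent.helper67.RG.FDefs

/-!
# Project LB (MP_2e0e07_nt): infinitely many primes are big (a theorem of Larsen in rank two), part 1

RULES. Row `XXX`: file `Pool/Agent/<seat>/LB/XXX.lean`, `import Pool.Agent.helper82.LB.Spec1`, `set_option autoImplicit false`,
`open Matrix Polynomial NumberField Pool.Agent.GO Pool.Agent.RG Pool.Agent.CH`, `namespace Pool.Agent.LB`, theorem line as in the lock note. Auxiliary lemmas are prefixed `XXX_`. No sorry,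
no straight double quotes, no convert / congr!. Every row may use the other `_stmt`s only as the hypotheses named in its line.

Plan. Let `(ρ_j)` be a compatible system of two-dimensional representations for (almost) all primes, irreducible on open subgroups. `Δ_v = a_v² - 4 d_v`. LOC: for `p_j` completely split in a number field `L`
the image of `ρ_j` contains elements near `1` whose discriminant is not a square in `ℚ_p`, so the square roots of the `Δ_v`, `a_v ≠ 0`, are not all in `L` (SQF). So (GRE, Kummer theory) there are a Galois extension `M / ℚ` and `σ ∈ Gal(M/ℚ)`,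
trivial on all conjugates of `E`, with `σ √τ(Δ_v Δ_v') = - √τ(Δ_v Δ_v')` for every embedding `τ` of `E` and suitable `v, v'` (depending on `τ`). If `σ` is a Frobenius element at a prime of `M` over a large `p = p_j` and `S_j` is not big then by Dickson / Klein (DIC)
all `Δ_v Δ_v'` (`a_v, a_v' ≠ 0`) are squares modulo the prime of `E` given by `j`, a contradiction (BIG).
-/

set_option autoImplicit false

open Matrix Polynomial NumberField Pool.Agent.GO Pool.Agent.RG Pool.Agent.CH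

namespace Pool.Agent.LB

/-- `U_k(t, d) = ∑_{i < k} α^i β^(k-1-i)` for `α + β = t`, `α β = d`: for a 2x2 matrix `X^k = U_k X - det X * U_(k-1)` -/
def Uk {R : Type*} [CommRing R] (t d : R) : ℕ → R
  | 0 => 0
  | 1 => 1
  | (k + 2) => t * Uk t d (k + 1) - d * Uk t d k

/-- the discriminant of the characteristic polynomial -/
def dsc {R : Type*} [CommRing R] (A : Matrix (Fin 2) (Fin 2) R) : R := A.trace ^ 2 - 4 * A.det

/-! ## Finite groups -/

/-- **KLE** (medium, PURE): Klein's counting. If `P` is trivial the index is one. Let `N = |P| ≥ 2`, `Y` = the set of the points with a nontrivial stabilizer (finite: a union of the fixed point sets of the `g ≠ 1`). Count the pairs `(g, x)`, `g ≠ 1`, `g x = x`: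
`2 (N - 1) = ∑_{x ∈ Y} (|P_x| - 1)`. In terms of the orbits in `Y`, with stabilizers of order `e_i ≥ 2` and `N/e_i` elements, `i ≤ r`: `∑_i (1 - 1/e_i) = 2 - 2/N` (`MulAction.card_orbit_mul_card_stabilizer_eq_card_group`). The terms are `≥ 1/2` and `< 1`, so `2 ≤ r ≤ 3`.
`r = 2`: `1/e_1 + 1/e_2 = 2/N`, `e_i ≤ N`: `e_1 = N`, index one. `r = 3`: `1/e_1 + 1/e_2 + 1/e_3 = 1 + 2/N > 1`, `e_1 ≤ e_2 ≤ e_3`: `e_1 = 2`; `e_2 = 2` gives `e_3 = N/2`, index two; `e_2 = 3` gives `e_3 ≤ 5`, `N ≤ 60`; `e_2 ≥ 4` is impossible. -/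
def KLE_stmt : Prop := ∀ (P X : Type) [Group P] [Finite P] [MulAction P X] [Nonempty X],
  (∀ g : P, g ≠ 1 → (MulAction.fixedBy X g).ncard = 2) → (∃ x : X, (MulAction.stabilizer P x).index ≤ 2) ∨ Nat.card P ≤ 60

/-- **DIR** (short-medium, PURE). `ψ₁(g)`, `ψ₂(g)` are the roots of a polynomial over the prime field, so `x ↦ x^p` permutes them: `ψ₁(g)^p = ψ₁(g)`, `ψ₂(g)^p = ψ₂(g)` (this defines a subgroup `H₁`) or `ψ₁(g)^p = ψ₂(g)`, `ψ₂(g)^p = ψ₁(g)` (a subgroup `H₂`). `G` is the union, so `G = H₁` or `G = H₂`.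
Let `x = ψ₁(g) - ψ₂(g)`, `x' = ψ₁(g') - ψ₂(g')`. In the first case `x^p = x`, `x'^p = x'`, in the second `x^p = -x`, `x'^p = -x'` (`p` odd), so `(x x')^p = x x'` in both cases, and `x x'` is in the prime field (the polynomial `X^p - X` has at most `p` roots). -/
def DIR_stmt : Prop := ∀ (p : ℕ) [Fact p.Prime] (κ G : Type) [Field κ] [CharP κ p] [Group G] (ψ₁ ψ₂ : G →* κˣ), p ≠ 2 →
  (∀ g, ∃ a b : ZMod p, ZMod.castHom (dvd_refl p) κ a = (ψ₁ g : κ) + ψ₂ g ∧ ZMod.castHom (dvd_refl p) κ b = (ψ₁ g : κ) * ψ₂ g) →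
  ∀ g g' : G, ∃ c : ZMod p, ((ψ₁ g : κ) - ψ₂ g) * ((ψ₁ g' : κ) - ψ₂ g') = ZMod.castHom (dvd_refl p) κ c

/-- **DIC** (medium, PURE). (A) `S` reducible: it has a stable line `ℓ`; `G₁ = G`. (B) `S` irreducible, no element of order `p` in the image: the image is finite (`S.ker` has finite index), of order prime to `p` (Cauchy), so every `S g` which is not scalar has (finite order prime to `p`, `X^n - 1` separable) two different eigenvalues
and exactly two eigenlines. KLE for `P = G / {g : S g scalar}` acting on the lines of `κ²` (`Submodule` of `finrank` one, or `Projectivization`): `|P| ≤ 60` is impossible (some power `(S g₀)^k`, `k ≤ 60`, would be scalar); so the stabilizer `G₁` of some line `ℓ` has index `≤ 2`. If `g ∉ G₁` (index two)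
then `ℓ' = g ℓ ≠ ℓ`, `g² ∈ G₁`, so `g ℓ' = ℓ`, and `trace (S g) = 0` (in a basis of `ℓ`, `ℓ'`). In both cases: on `G₁` we have the characters `ψ₁` (on `ℓ`), `ψ₂` (on `κ²/ℓ`), `trace = ψ₁ + ψ₂`, `det = ψ₁ ψ₂`, `dsc = (ψ₁ - ψ₂)²`; elements with trace `≠ 0` are in `G₁`; DIR. Uses KLE, DIR. -/
def DIC_stmt : Prop := ∀ (p : ℕ) [Fact p.Prime] (κ G : Type) [Field κ] [IsAlgClosed κ] [CharP κ p] [Group G]
  (S : G →* Matrix (Fin 2) (Fin 2) κ), p ≠ 2 → S.ker.FiniteIndex →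
  (∀ g, ∃ a b : ZMod p, ZMod.castHom (dvd_refl p) κ a = (S g).trace ∧ ZMod.castHom (dvd_refl p) κ b = (S g).det) →
  (∃ g₀, ∀ k : ℕ, 1 ≤ k → k ≤ 60 → ∀ c : κ, (S g₀) ^ k ≠ c • (1 : Matrix (Fin 2) (Fin 2) κ)) →
  ¬ (Irred (fun g => S g) ∧ ∃ g, orderOf (S g) = p) →
  ∀ g g' : G, (S g).trace ≠ 0 → (S g').trace ≠ 0 → ∃ c : ZMod p, dsc (S g) * dsc (S g') = (ZMod.castHom (dvd_refl p) κ c) ^ 2

/-! ## p-adic discriminants -/

/-- **TFQ** (medium, PURE). Suppose that all values at integral vectors are squares. The squares of `ℚ_p` are a closed set (near a nonzero square there are only squares, near a nonzero nonsquare only nonsquares: `x/y = 1 + z`, `‖z‖ < ‖4‖`, is a square by Hensel), `ℤ` is dense in `ℤ_p` and every vector is `p^(-k)` times one over `ℤ_p`: so `q(x) = x^T B x` is a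
square for ALL `x ∈ ℚ_p³`. As `B` is symmetric and nondegenerate there are two vectors `x, y` with `q(x) ≠ 0`, `q(y) ≠ 0`, `x^T B y = 0` (orthogonal basis: `QuadraticForm`/`LinearMap.BilinForm.exists_orthogonal_basis`, or by hand). `q(x) = a²`, `q(y) = b²`, so `s² + t² = q((s/a) x + (t/b) y)` is a square for all `s, t`:
sums of squares are squares, `1` is a square, so all natural numbers are squares in `ℚ_p`; but `p` is not (the valuation is odd). -/
def TFQ_stmt : Prop := ∀ (p : ℕ) [Fact p.Prime] (B : Matrix (Fin 3) (Fin 3) ℚ_[p]), B.IsSymm → B.det ≠ 0 →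
  ∃ τ : Fin 3 → ℤ, ¬ IsSquare (∑ i, ∑ j, (τ i : ℚ_[p]) * B i j * (τ j : ℚ_[p]))

/-- **POW** (medium, PURE). The norm of `F` is ultrametric (`‖(n : F)‖ ≤ 1`: `IsUltrametricDist.isUltrametricDist_of_forall_norm_natCast_le_one`), `‖algebraMap x‖ = ‖x‖`. Write `t_i, d_i ∈ ℚ_p` for trace and determinant of `X i`, `U_k(X) = Uk (trace X) (det X) k`; `X^k = U_k(X) X - det X * U_(k-1)(X)`, `U_(ak)(X) = U_a(X^k) U_k(X)`; the matrices `≡ 1 mod p²` are closed under products,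
`‖X^(p^n) - 1‖ ≤ p^(-n-2)` (binomial formula). `U_a(t, d)` is a polynomial in `t, d` with integral coefficients and `U_a(2, 1) = a`, so `‖U_a(X^(p^n)) - a‖ ≤ p^(-n-2)`, and `‖U_p(X^(p^i)) - p‖ ≤ p^(-2)`, so `‖U_(p^n)(X)‖ = p^(-n)`; `κ_i = U_(p^n)(X_i)/p^n` is a unit of `ℤ_p`.
Choose `a'_i ∈ ℕ` with `‖a'_i κ_i - τ_i‖ ≤ p^(-M)`, `p^(-M) < ε` (density of `ℕ` in `ℤ_p`), `k_i = a'_i p^n`, `n ≥ M`. `X_i^(k_i) = V_i + u_i X_i`, `u_i = U_(k_i)(X_i)`, `‖u_i‖ ≤ p^(-n)`, `‖V_i - 1‖ ≤ p^(-n)`, `‖u_i - a'_i κ_i p^n‖ ≤ p^(-2n)`. The product of the three is `scalar + ∑ c_i X_i + R`, `‖R‖ ≤ p^(-2n)` (terms with two or three `u`'s),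
`c_i = u_i` times two of the `V`'s, `‖c_i - τ_i p^n‖ ≤ p^(-n) p^(-M)`. `dsc` is a quadratic form in the entries (integral coefficients) and does not change if a scalar is added: `dsc(∑ c_i X_i + R) = p^(2n) (dsc(∑ τ_i X_i) + error)`, `‖error‖ ≤ p^(-M)`. -/
def POW_stmt : Prop := ∀ (p : ℕ) [Fact p.Prime] (F : Type) [NormedField F] [NormedAlgebra ℚ_[p] F] (X : Fin 3 → Matrix (Fin 2) (Fin 2) F),
  (∀ i x y, ‖X i x y - (1 : Matrix (Fin 2) (Fin 2) F) x y‖ ≤ ((p : ℝ) ^ 2)⁻¹) →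
  (∀ i, ∃ a b : ℚ_[p], algebraMap ℚ_[p] F a = (X i).trace ∧ algebraMap ℚ_[p] F b = (X i).det) →
  ∀ (τ : Fin 3 → ℤ) (ε : ℝ), 0 < ε → ∃ (n : ℕ) (a : Fin 3 → ℕ),
    ‖dsc (X 0 ^ a 0 * X 1 ^ a 1 * X 2 ^ a 2) - (p : F) ^ (2 * n) * dsc (∑ i, (τ i : F) • X i)‖ < ε * ((p : ℝ) ^ (2 * n))⁻¹

/-- **LOC** (medium). `U'` = the set of the `u` with `‖ρ u - 1‖ ≤ p^(-N)` (all entries), `N ≥ 2`, `p^(-N) < ε`: an open subgroup (`ρ` is integral and continuous). `ρ` is irreducible on `U'` over the algebraically closed `Ω`, so `ρ(U')` spans `M_2(Ω)` (Burnside; there is a lemma in Pool/Agent/helper6/GO or helper21/FF or Mathlib) and `M_2(F)` over `F`: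
there are `u_1, u_2, u_3 ∈ U'` with `1, X_i = ρ(u_i)` linearly independent. `dsc(∑ c_i X_i) = ∑ B_ij c_i c_j`, `B_ij = 2 trace(X_i X_j) - trace X_i trace X_j ∈ ℚ_p` (`X_i X_j = ρ(u_i u_j)`). `det B ≠ 0`: if `B c = 0`, `c ≠ 0` (over `F`), then `Z = ∑ c_i X_i` is orthogonal to `1` and all `X_j`, i.e. to all of `M_2(F)`, for `(A, A') ↦ 2 trace(A A') - trace A trace A'`,
whose radical consists of the scalar matrices. TFQ: `τ` with `D = dsc(∑ τ_i X_i) ∈ ℚ_p` not a square. POW with `ε' = ‖4 D‖`: `g = u_1^a u_2^b u_3^c`, `dsc(ρ g) ∈ ℚ_p` (hypothesis), `dsc(ρ g)/(p^(2n) D) = 1 + z`, `‖z‖ < ‖4‖`, a square (Hensel), so `dsc(ρ g)` is not a square. Uses TFQ, POW. -/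
def LOC_stmt : Prop := ∀ (p : ℕ) [Fact p.Prime] (F Ω Γ : Type) [NormedField F] [NormedAlgebra ℚ_[p] F] [FiniteDimensional ℚ_[p] F]
  [Field Ω] [IsAlgClosed Ω] [Algebra F Ω] [Group Γ] [TopologicalSpace Γ] [IsTopologicalGroup Γ] (ρ : Γ →* Matrix (Fin 2) (Fin 2) F),
  Continuous ρ → (∀ g x y, ‖ρ g x y‖ ≤ 1) →
  (∀ U : Subgroup Γ, IsOpen (U : Set Γ) → Irred (fun u : U => bc (algebraMap F Ω) ρ u)) →
  (∀ g, ∃ a b : ℚ_[p], algebraMap ℚ_[p] F a = (ρ g).trace ∧ algebraMap ℚ_[p] F b = (ρ g).det) →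
  ∀ ε : ℝ, 0 < ε → ∃ g : Γ, (∀ x y, ‖ρ g x y - (1 : Matrix (Fin 2) (Fin 2) F) x y‖ < ε) ∧
    ∃ x : ℚ_[p], algebraMap ℚ_[p] F x = dsc (ρ g) ∧ ¬ IsSquare x

/-! ## Number fields -/

/-- **SPT** (medium). `θ ∈ 𝓞 L` with `L = ℚ(θ)`, `f` its minimal polynomial over `ℤ`; `M` a number field, Galois over `ℚ`, in which `f` splits (splitting field or normal closure), `θ_i ∈ 𝓞 M` the roots, `D = ∏_{i ≠ j} (θ_i - θ_j) ≠ 0`. CHEB for `M / ℚ`, `σ = 1`, avoiding `T` and the primes dividing the norm of `D`: `x - x^p ∈ P` for all `x ∈ 𝓞 M`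
(`IsArithFrobAt`: the exponent is `Nat.card (𝓞 ℚ ⧸ P.under (𝓞 ℚ)) = absNorm = p`). So the `θ_i mod P` are in the prime field `𝔽_p` of `𝓞 M ⧸ P` and different (`D ∉ P`): `f mod p` has `deg f` different roots in `𝔽_p`. Hensel (`hensels_lemma` in `ℤ_[p]`): `f` has `deg f` different roots in `ℤ_p`, so in any field `Ω ⊇ ℚ_p` all its roots are in `ℚ_p`; `φ(θ)` is one of them, and `φ(L) = ℚ(φ(θ))`. Uses CHEB. -/
def SPT_stmt : Prop := ∀ (L : Type) [Field L] [NumberField L] (T : Finset ℕ), ∃ p : ℕ, p.Prime ∧ p ∉ T ∧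
  ∀ [Fact p.Prime] (Ω : Type) [Field Ω] [Algebra ℚ_[p] Ω] (φ : L →+* Ω) (x : L), ∃ y : ℚ_[p], algebraMap ℚ_[p] Ω y = φ x

/-- **EMB** (medium). `ι₀ : E → M`. `𝔭 = ker φ` is a prime ideal of `𝓞 E` containing `p`; let `𝔮` be a prime ideal of `𝓞 M` over `𝔭` along `ι₀` (`Ideal.exists_ideal_over_prime_of_isIntegral` or `Ideal.exists_ideal_liesOver..`). `𝔮` and `P` both lie over `(p) ⊂ ℤ`, so `g(𝔮) = P` for some `g ∈ Gal(M/ℚ)` (transitivity: Mathlib `Ideal.exists_smul_eq_of_isGaloisGroup` / `IsDedekindDomain` / `exists_map_eq_of_isGalois`); `τ = g ∘ ι₀`. -/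
def EMB_stmt : Prop := ∀ (E M : Type) [Field E] [NumberField E] [Field M] [NumberField M] [IsGalois ℚ M], Nonempty (E →+* M) →
  ∀ (p : ℕ) (κ : Type) [Field κ] (φ : 𝓞 E →+* κ) (P : Ideal (𝓞 M)), p.Prime → (p : κ) = 0 → P.IsPrime → ((p : ℕ) : 𝓞 M) ∈ P →
  ∃ τ : E →+* M, ∀ x : 𝓞 E, RingOfIntegers.mapRingHom τ x ∈ P ↔ φ x = 0

/-- **GRE** (medium): Kummer theory for square roots. Work in an algebraic closure `Ω` of `ℚ` (or of `E`); `E'` = the Galois closure of `E` in `Ω`, `τ_1, .., τ_n` all embeddings `E → Ω` (they have values in `E'`). `δ' ∈ D`, `δ' ≠ 0` (the hypothesis for `L = E`: a non-square is not `0`). `L_0` = `E'` with square roots of all `τ_k(δ')`.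
Inductively `δ_i ∈ D` such that `τ_i(δ_i)` is not a square in the number field `L_(i-1)`, `y_i ∈ Ω` with `y_i² = τ_i(δ_i δ')` (so `y_i ∉ L_(i-1)`, because `√τ_i(δ') ∈ L_0`), `L_i = L_(i-1)(y_i)`. `M` = the Galois closure of `L_n`. Inductively there is an embedding `σ_i : L_i → Ω` over `L_0` with `σ_i(y_k) = -y_k` for `k ≤ i`: extend `σ_(i-1)`; the minimal polynomial of `y_i`
over `L_(i-1)` is `X² - τ_i(δ_i δ')`, whose coefficients are in `E'`, fixed by `σ_(i-1)`, so `y_i ↦ -y_i` is allowed. Extend `σ_n` to `M` (`M / ℚ` is normal). Alternative: first show that no nonempty product of the `x_i = τ_i(δ_i δ')` is a square in `E'`; the image of `Gal(M/E') → {±1}^n`, `σ ↦ (σ y_i / y_i)`, is everything, since otherwise some nonempty product of the `y_i`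
would be fixed by `Gal(M/E')`, i.e. in `E'`. (All embeddings `E → M` are the `τ_i`.) -/
def GRE_stmt : Prop := ∀ (E : Type) [Field E] [NumberField E] (D : Set (𝓞 E)),
  (∀ (L : Type) [Field L] [NumberField L] (i : E →+* L), ∃ δ ∈ D, ¬ IsSquare (i (δ : E))) →
  ∃ (M : Type) (_ : Field M) (_ : NumberField M) (_ : IsGalois ℚ M) (σ : M ≃ₐ[ℚ] M), Nonempty (E →+* M) ∧
    (∀ (τ : E →+* M) (x : E), σ (τ x) = τ x) ∧
    ∀ τ : E →+* M, ∃ δ ∈ D, ∃ δ' ∈ D, δ ≠ 0 ∧ δ' ≠ 0 ∧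
      ∃ y : 𝓞 M, y ^ 2 = RingOfIntegers.mapRingHom τ (δ * δ') ∧ σ (y : M) = -(y : M)

end Pool.Agent.LB
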